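import Pool.Agent.W966.Vg.Stms

/-!
# Base change, scaling and translation of computations
-/

set_option autoImplicit false

namespace Pool.Agent.W366.VG

open MvPolynomial Pool.Agent.W966.Vg

/-- Base change of a linear combination. -/
def mapLF {R P ι : Type} [CommRing R] [CommRing P] [Algebra R P] (f : LF R ι) : LF P ι :=
  ⟨algebraMap R P f.c, fun i => algebraMap R P (f.x i), fun s => algebraMap R P (f.r s)⟩

/-- A multiple of a linear combination. -/
def smulLF {P ι : Type} [CommRing P] (y : P) (f : LF P ι) : LF P ι :=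
  ⟨y * f.c, fun i => y * f.x i, fun s => y * f.r s⟩

/-- The translate of a linear combination. -/
def shiftLF {P ι : Type} [CommRing P] [Fintype ι] (a : ι → P) (f : LF P ι) : LF P ι :=
  ⟨f.c - ∑ i, f.x i * a i, f.x, f.r⟩

theorem val_map {R P ι : Type} [CommRing R] [CommRing P] [Algebra R P] [Fintype ι] (f : LF R ι)
    (l : ℕ) (g : ℕ → MvPolynomial ι R) :
    MvPolynomial.map (algebraMap R P) (f.val (X : ι → MvPolynomial ι R) l g) =
      (mapLF (P := P) f).val X l fun s => MvPolynomial.map (algebraMap R P) (g s) := by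
  simp only [LF.val, mapLF, map_add, map_sum, map_mul, MvPolynomial.algebraMap_eq, map_C, map_X]

theorem val_smul {P ι : Type} [CommRing P] [Fintype ι] (y : P) (f : LF P ι)
    (l : ℕ) (g : ℕ → MvPolynomial ι P) :
    (smulLF y f).val X l g = C y * f.val X l g := by
  simp only [LF.val, smulLF, MvPolynomial.algebraMap_eq, map_mul, mul_add, Finset.mul_sum,
    mul_assoc]

theorem bas : S_BAS := by
  intro R P ι V _ _ _ _ M z G F hG hz hGF
  obtain ⟨a, b, o, g, hg, ho⟩ := hG
  refine ⟨fun r => mapLF (a r), fun r => mapLF (b r),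
    fun v => smulLF (algebraMap R P z)⁻¹ (mapLF (o v)),
    fun r => MvPolynomial.map (algebraMap R P) (g r), ?_, ?_⟩
  · intro r hr
    change MvPolynomial.map (algebraMap R P) (g r) = _
    rw [hg r hr, map_mul, val_map, val_map]
  · intro v
    change MvPolynomial.map (algebraMap R P) (F v) = _
    rw [val_smul, ← val_map, ← ho v, hGF v, map_mul, map_C, ← mul_assoc, ← C_mul,
      inv_mul_cancel₀ hz, C_1, one_mul]

theorem val_shift {P ι : Type} [CommRing P] [Fintype ι] (a : ι → P) (f : LF P ι)
    (l : ℕ) (g : ℕ → MvPolynomial ι P) :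
    aeval (fun i => (X i - C (a i) : MvPolynomial ι P)) (f.val X l g) =
      (shiftLF a f).val X l fun s => aeval (fun i => (X i - C (a i) : MvPolynomial ι P)) (g s) := by
  simp only [LF.val, shiftLF, map_add, map_sum, map_mul, MvPolynomial.algebraMap_eq, aeval_X,
    algHom_C, map_sub, mul_sub, Finset.sum_sub_distrib]
  ring

theorem shift : S_SHIFT := by
  intro P ι V _ _ M F a hF
  obtain ⟨a', b, o, g, hg, ho⟩ := hF
  refine ⟨fun r => shiftLF a (a' r), fun r => shiftLF a (b r), fun v => shiftLF a (o v),
    fun r => aeval (fun i => (X i - C (a i) : MvPolynomial ι P)) (g r), ?_, ?_⟩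
  · intro r hr
    change aeval (fun i => (X i - C (a i) : MvPolynomial ι P)) (g r) = _
    rw [hg r hr, map_mul, val_shift, val_shift]
  · intro v
    change aeval (fun i => (X i - C (a i) : MvPolynomial ι P)) (F v) = _
    rw [ho v, val_shift]

end Pool.Agent.W366.VG
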